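import Mathlib
import Pool.Agent.H26.HomogBlk
import Pool.Agent.H26.Homog20

set_option autoImplicit false

namespace Pool.Agent.Results.MP_510a26_co.All

def IsLatin {α : Type} (L : α → α → α) : Prop :=
  (∀ r, Function.Bijective (fun c => L r c)) ∧ (∀ c, Function.Bijective (fun r => L r c))

def Homogeneous {α : Type} (h : ℕ) (L : α → α → α) : Prop :=
  ∀ r c : α, Set.ncard {p : α × α | p.1 ≠ r ∧ p.2 ≠ c ∧ L r c = L p.1 p.2 ∧
    L r p.2 = L p.1 c} = h

def Orth {α : Type} (L M : α → α → α) : Prop :=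
  Function.Injective (fun p : α × α => (L p.1 p.2, M p.1 p.2))

theorem lat {G : Type} [Group G] {n : ℕ} (e : Fin n ≃ G) (φ : G ≃ G) :
    IsLatin (fun r c : Fin n => e.symm (e r * φ (e c))) :=
  ⟨fun r => e.symm.bijective.comp ((Equiv.mulLeft (e r)).bijective.comp
      (φ.bijective.comp e.bijective)),
   fun c => e.symm.bijective.comp ((Equiv.mulRight (φ (e c))).bijective.comp e.bijective)⟩

theorem hom {G : Type} [Group G] {n : ℕ} (e : Fin n ≃ G) (φ : G ≃ G) (h : ℕ)
    (hh : Set.ncard {u : G | u ≠ 1 ∧ u * u = 1} = h) :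
    Homogeneous h (fun r c : Fin n => e.symm (e r * φ (e c))) := by
  intro r c
  have hinj : Function.Injective (fun u : G =>
      ((e.symm (e r * u), e.symm (φ.symm (u * φ (e c)))) : Fin n × Fin n)) := by
    intro u v huv
    have := e.symm.injective (Prod.mk.inj huv).1
    exact mul_left_cancel this
  rw [← hh, ← Set.ncard_image_of_injective _ hinj]
  congr 1
  ext ⟨a, b⟩
  simp only [Set.mem_setOf_eq, Set.mem_image, Prod.mk.injEq, e.symm.injective.eq_iff]
  constructor
  · rintro ⟨h1, h2, h3, h4⟩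
    have h5 : φ (e b) = ((e r)⁻¹ * e a) * φ (e c) := by
      rw [mul_assoc, ← h4]; simp
    refine ⟨(e r)⁻¹ * e a, ⟨fun h6 => h1 ?_, ?_⟩, by simp, by rw [← h5]; simp⟩
    · exact (e.injective (inv_mul_eq_one.1 h6)).symm
    · have h7 : ((e r)⁻¹ * e a) * ((e r)⁻¹ * e a) * φ (e c) = 1 * φ (e c) := by
        rw [mul_assoc ((e r)⁻¹ * e a), ← h5, mul_assoc, ← h3]; simp
      exact mul_right_cancel h7
  · rintro ⟨u, ⟨h1, h2⟩, rfl, rfl⟩
    refine ⟨fun h3 => h1 ?_, fun h3 => h1 ?_, ?_, ?_⟩
    · have := congrArg e h3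
      simpa using this
    · have := congrArg (fun t => φ (e t)) h3
      simpa using this
    · simp only [Equiv.apply_symm_apply]
      rw [mul_assoc, ← mul_assoc u u, h2, one_mul]
    · simp only [Equiv.apply_symm_apply]
      rw [mul_assoc]

theorem grp (G : Type) [Group G] [Finite G] (θ : G → G) (h1 : Function.Injective θ)
    (h2 : Function.Injective (fun y => y * θ y)) (h : ℕ)
    (hh : Set.ncard {u : G | u ≠ 1 ∧ u * u = 1} = h) :
    ∃ (n : ℕ) (L M : Fin n → Fin n → Fin n), 0 < n ∧ IsLatin L ∧ IsLatin M ∧ Orth L M ∧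
      Homogeneous h L ∧ Homogeneous h M := by
  let e : Fin (Nat.card G) ≃ G := (Finite.equivFin G).symm
  let η : G ≃ G := Equiv.ofBijective _ (Finite.injective_iff_bijective.1 h2)
  refine ⟨Nat.card G, _, _, Nat.card_pos, lat e (Equiv.refl G), lat e η, ?_,
    hom e (Equiv.refl G) h hh, hom e η h hh⟩
  rintro ⟨a, b⟩ ⟨c, d⟩ hp
  have p1 : e a * e b = e c * e d := e.symm.injective (Prod.mk.inj hp).1
  have p2 : e a * (e b * θ (e b)) = e c * (e d * θ (e d)) := e.symm.injective (Prod.mk.inj hp).2
  rw [← mul_assoc, ← mul_assoc, p1] at p2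
  have p3 : b = d := e.injective (h1 (mul_left_cancel p2))
  subst p3
  rw [e.injective (mul_right_cancel p1)]

theorem half (k : ℕ) [NeZero k] (i j : ZMod (2 * k)) (h : i + i = j + j)
    (hij : i.val < k ↔ j.val < k) : i = j := by
  haveI : NeZero (2 * k) := ⟨by have := NeZero.ne k; omega⟩
  have hi := ZMod.val_lt i
  have hj := ZMod.val_lt j
  have h' : ((i.val + i.val : ℕ) : ZMod (2 * k)) = ((j.val + j.val : ℕ) : ZMod (2 * k)) := by
    push_cast
    simpa using h
  rw [ZMod.natCast_eq_natCast_iff'] at h'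
  apply ZMod.val_injective
  by_cases c : i.val < k
  · have c' := hij.1 c
    rw [Nat.mod_eq_of_lt (by omega), Nat.mod_eq_of_lt (by omega)] at h'
    omega
  · have c' : ¬ j.val < k := fun t => c (hij.2 t)
    rw [Nat.mod_eq_sub_mod (by omega), Nat.mod_eq_of_lt (by omega),
      Nat.mod_eq_sub_mod (show j.val + j.val ≥ 2 * k by omega), Nat.mod_eq_of_lt (by omega)] at h'
    omega

theorem par (k : ℕ) (i j : ZMod (2 * k)) : i + i ≠ -1 - j - j := by
  intro h
  have := congrArg (ZMod.castHom (Dvd.intro k rfl) (ZMod 2)) h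
  simp only [map_add, map_sub, map_neg, map_one] at this
  generalize (ZMod.castHom (Dvd.intro k rfl) (ZMod 2)) i = a at this
  generalize (ZMod.castHom (Dvd.intro k rfl) (ZMod 2)) j = b at this
  revert a b
  decide

open DihedralGroup in
def th (k : ℕ) : DihedralGroup (2 * k) → DihedralGroup (2 * k)
  | r i => if i.val < k then r i else sr (-1 - i)
  | sr i => if i.val < k then sr (-1 - i) else r i

open DihedralGroup in
theorem th1 (k : ℕ) : Function.Injective (th k) := by
  rintro (i | i) (j | j) h <;> simp only [th] at h <;> split_ifs at h with a b b <;>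
    simp_all <;> omega

open DihedralGroup in
theorem th2 (k : ℕ) [NeZero k] : Function.Injective (fun y => y * th k y) := by
  rintro (i | i) (j | j) h <;> simp only [th] at h <;> split_ifs at h with a b b <;>
    simp only [r_mul_r, r_mul_sr, sr_mul_r, sr_mul_sr, r.injEq, sr.injEq, reduceCtorEq] at h <;>
    first
    | exact absurd h (par k i j)
    | exact absurd h.symm (par k j i)
    | (congr 1; exact half k i j h (by tauto))
    | (congr 1; exact half k i j (by linear_combination -h) (by tauto))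

open DihedralGroup in
theorem inv (k : ℕ) [NeZero k] :
    Set.ncard {u : DihedralGroup (2 * k) | u ≠ 1 ∧ u * u = 1} = 2 * k + 1 := by
  haveI : NeZero (2 * k) := ⟨by have := NeZero.ne k; omega⟩
  have hk := NeZero.pos k
  have hv : ((k : ℕ) : ZMod (2 * k)).val = k := ZMod.val_cast_of_lt (by omega)
  have hkk : ((k : ℕ) : ZMod (2 * k)) + k = 0 := by
    rw [← Nat.cast_add, ← two_mul, ZMod.natCast_self]
  have hs : {u : DihedralGroup (2 * k) | u ≠ 1 ∧ u * u = 1} =
      insert (r (k : ZMod (2 * k))) (Set.range sr) := by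
    ext (i | i)
    · simp only [Set.mem_setOf_eq, one_def, r_mul_r, ne_eq, r.injEq, Set.mem_insert_iff,
        Set.mem_range, reduceCtorEq, exists_false, or_false]
      constructor
      · rintro ⟨h1, h2⟩
        by_cases c : i.val < k
        · exact absurd (half k i 0 (by simpa using h2) (by simp [c, hk])) h1
        · exact half k i k (by rw [h2, hkk]) (by simp [c, hv])
      · rintro rfl
        refine ⟨fun h => ?_, hkk⟩
        rw [h] at hv
        simp at hv
        omega
    · constructor
      · intro _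
        exact Or.inr ⟨i, rfl⟩
      · intro _
        refine ⟨fun h => ?_, sr_mul_self i⟩
        rw [one_def] at h
        cases h
  rw [hs, Set.ncard_insert_of_notMem (by simp), ← Set.image_univ,
    Set.ncard_image_of_injective _ (fun a b h => sr.inj h), Set.ncard_univ]
  simp

open QuaternionGroup in
def tq : QuaternionGroup 2 → QuaternionGroup 2
  | a i => if i.val < 2 then a i else xa (-1 - i)
  | xa i => if i.val < 2 then xa (-1 - i) else a i

theorem invq : Set.ncard {u : QuaternionGroup 2 | u ≠ 1 ∧ u * u = 1} = 1 := by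
  rw [Set.ncard_eq_one]
  refine ⟨QuaternionGroup.a 2, ?_⟩
  ext u
  simp only [Set.mem_setOf_eq, Set.mem_singleton_iff]
  revert u
  decide

theorem odd (h : ℕ) (hh : Odd h) :
    ∃ (n : ℕ) (L M : Fin n → Fin n → Fin n), 0 < n ∧ IsLatin L ∧ IsLatin M ∧ Orth L M ∧
      Homogeneous h L ∧ Homogeneous h M := by
  obtain ⟨k, rfl⟩ := hh
  rcases Nat.eq_zero_or_pos k with rfl | hk
  · exact grp (QuaternionGroup 2) tq (by decide) (by decide) _ invq
  · haveI : NeZero k := ⟨by omega⟩
    haveI : NeZero (2 * k) := ⟨by omega⟩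
    exact grp (DihedralGroup (2 * k)) (th k) (th1 k) (th2 k) _ (inv k)

theorem trL {α : Type} {n : ℕ} (e : Fin n ≃ α) (L : α → α → α) (hL : IsLatin L) :
    IsLatin (fun r c : Fin n => e.symm (L (e r) (e c))) :=
  ⟨fun r => e.symm.bijective.comp ((hL.1 (e r)).comp e.bijective),
   fun c => e.symm.bijective.comp ((hL.2 (e c)).comp e.bijective)⟩

theorem trH {α : Type} {n : ℕ} (e : Fin n ≃ α) (L : α → α → α) (h : ℕ) (hL : Homogeneous h L) :
    Homogeneous h (fun r c : Fin n => e.symm (L (e r) (e c))) := by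
  intro r c
  rw [← hL (e r) (e c), ← Set.ncard_image_of_injective _ (e.prodCongr e).injective]
  congr 1
  ext ⟨a, b⟩
  obtain ⟨a, rfl⟩ := e.surjective a
  obtain ⟨b, rfl⟩ := e.surjective b
  rw [show ((e a, e b) : α × α) = (e.prodCongr e) (a, b) from rfl,
    (e.prodCongr e).injective.mem_set_image]
  simp only [Set.mem_setOf_eq, Equiv.prodCongr_apply, Prod.map, ne_eq,
    e.injective.eq_iff, e.symm.injective.eq_iff]

theorem trO {α : Type} {n : ℕ} (e : Fin n ≃ α) (L M : α → α → α) (h : Orth L M) :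
    Orth (fun r c : Fin n => e.symm (L (e r) (e c))) (fun r c : Fin n => e.symm (M (e r) (e c))) := by
  rintro ⟨a, b⟩ ⟨c, d⟩ hp
  have p1 := e.symm.injective (Prod.mk.inj hp).1
  have p2 := e.symm.injective (Prod.mk.inj hp).2
  have := @h (e a, e b) (e c, e d) (Prod.ext p1 p2)
  rw [e.injective (Prod.mk.inj this).1, e.injective (Prod.mk.inj this).2]

open Pool.Agent.H26 Pool.Agent.H26.HomogBlk in
theorem result : ∀ h : ℕ,
    ∃ (n : ℕ) (L M : Fin n → Fin n → Fin n), 0 < n ∧ IsLatin L ∧ IsLatin M ∧ Orth L M ∧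
      Homogeneous h L ∧ Homogeneous h M := by
  intro h
  rcases Nat.even_or_odd' h with ⟨k, rfl | rfl⟩
  · rcases k with _ | _ | k
    · refine ⟨1, fun _ _ => 0, fun _ _ => 0, one_pos, ⟨by decide, by decide⟩,
        ⟨by decide, by decide⟩, fun _ _ _ => Subsingleton.elim _ _, ?_, ?_⟩ <;>
      · intro r c
        rw [Set.ncard_eq_zero]
        ext p
        simp [Subsingleton.elim p.1 r]
    · exact ⟨20, Homog20.tb Homog20.NL, Homog20.tb Homog20.NM, by norm_num, Homog20.hL.1,
        Homog20.hM.1, Homog20.orth, Homog20.hL.2, Homog20.hM.2⟩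
    · have hm : Odd (2 * k + 3) := ⟨k + 1, by ring⟩
      haveI : NeZero (2 * k + 3) := ⟨by omega⟩
      let e : Fin (Nat.card (Fin 4 × ZMod (2 * k + 3))) ≃ Fin 4 × ZMod (2 * k + 3) :=
        (Finite.equivFin _).symm
      have hk : 2 * (k + 1 + 1) = 2 * k + 3 + 1 := by ring
      rw [hk]
      refine ⟨_, _, _, Nat.card_pos,
        trL e (blk _ Q1 e1 c1) (HomogBlk.lat _ _ _ _ (by decide +kernel) (by decide +kernel)
          (by decide +kernel)),
        trL e (blk _ Q2 e2 c2) (HomogBlk.lat _ _ _ _ (by decide +kernel) (by decide +kernel)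
          (by decide +kernel)),
        trO e _ _ (HomogBlk.orth _ hm), trH e _ _ ?_, trH e _ _ ?_⟩
      · exact cnt _ hm (by omega) Q1 e1 c1 J1 (by decide +kernel) (by decide +kernel)
          (by decide +kernel) (by decide +kernel) (by decide +kernel) (by decide +kernel)
          (by decide +kernel)
      · exact cnt _ hm (by omega) Q2 e2 c2 J2 (by decide +kernel) (by decide +kernel)
          (by decide +kernel) (by decide +kernel) (by decide +kernel) (by decide +kernel)
          (by decide +kernel)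
  · exact odd _ ⟨k, rfl⟩

end Pool.Agent.Results.MP_510a26_co.All
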